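import Pool.Agent.Helper75.Slab.Goals

set_option autoImplicit false

open Set Filter Topology

namespace Pool.Agent.Helper3.Slab

open Pool.Agent.Helper75.Slab

noncomputable def w (x : E) : E :=
  ![-(prof (x 0 ^ 2 + x 1 ^ 2) / 2 * x 1), prof (x 0 ^ 2 + x 1 ^ 2) / 2 * x 0, 0]

noncomputable def kk : E := ![20, 0, 0]

noncomputable def cc (j : ℤ × ℤ) : E := ![4 * j.1, 4 * j.2, 0]

open Classical in
theorem v0_eq (y : E) : v0 y = if (round (y 0 / 4), round (y 1 / 4)) ∈ sites then
    kk + w (y - cc (round (y 0 / 4), round (y 1 / 4))) else kk := by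
  unfold v0 kk w cc
  split_ifs
  · ext i
    fin_cases i <;> simp <;> ring
  · rfl

theorem prof_zero (q : ℝ) (hq : 2 ≤ q) : prof q = 0 := by
  unfold prof
  exact Real.smoothTransition.zero_of_nonpos (by linarith)

theorem w_zero (y : E) (h : 2 ≤ y 0 ^ 2 + y 1 ^ 2) : w y = 0 := by
  unfold w
  rw [prof_zero _ h]
  ext i
  fin_cases i <;> simp

theorem prof_contDiff : ContDiff ℝ ((⊤ : ℕ∞) : WithTop ℕ∞) prof := by
  unfold prof
  exact Real.smoothTransition.contDiff.comp (contDiff_const.sub contDiff_id)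

theorem w_contDiff : ContDiff ℝ ((⊤ : ℕ∞) : WithTop ℕ∞) w := by
  have h0 : ContDiff ℝ ((⊤ : ℕ∞) : WithTop ℕ∞) (fun x : E => x 0) := contDiff_apply ℝ ℝ 0
  have h1 : ContDiff ℝ ((⊤ : ℕ∞) : WithTop ℕ∞) (fun x : E => x 1) := contDiff_apply ℝ ℝ 1
  have hq : ContDiff ℝ ((⊤ : ℕ∞) : WithTop ℕ∞) (fun x : E => prof (x 0 ^ 2 + x 1 ^ 2)) :=
    prof_contDiff.comp ((h0.pow 2).add (h1.pow 2))
  rw [contDiff_pi]
  intro i
  fin_cases i
  · have : (fun x : E => w x 0) = fun x => -(prof (x 0 ^ 2 + x 1 ^ 2) / 2 * x 1) := by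
      funext x; simp [w]
    exact this ▸ ((hq.div_const 2).mul h1).neg
  · have : (fun x : E => w x 1) = fun x => prof (x 0 ^ 2 + x 1 ^ 2) / 2 * x 0 := by
      funext x; simp [w]
    exact this ▸ (hq.div_const 2).mul h0
  · have : (fun x : E => w x 2) = fun x => (0 : ℝ) := by
      funext x; simp [w]
    exact this ▸ contDiff_const

theorem round_near (a : ℝ) (j : ℤ) (h : |a - 4 * j| < 2) : round (a / 4) = j := by
  rw [round_eq, Int.floor_eq_iff]
  rw [abs_lt] at h
  constructor <;> linarith [h.1, h.2]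

theorem round_far (x y : ℝ) (hx : |x - 4 * round (x / 4)| = 2) (hy : |y - x| < 1 / 4) (r : ℤ) :
    2 ≤ (y - 4 * r) ^ 2 := by
  obtain ⟨m, hm⟩ : ∃ m : ℤ, x = 4 * m + 2 := by
    rcases abs_eq (by norm_num : (0 : ℝ) ≤ 2) |>.1 hx with h | h
    · exact ⟨round (x / 4), by linarith⟩
    · exact ⟨round (x / 4) - 1, by push_cast; linarith⟩
  rw [abs_lt] at hy
  rcases le_or_gt r m with h | h
  · have h' : (r : ℝ) ≤ m := by exact_mod_cast h
    nlinarith [hy.1, hy.2]
  · have h' : (m : ℝ) + 1 ≤ r := by exact_mod_cast h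
    nlinarith [hy.1, hy.2]

theorem near_val (x : E) (i : Fin 3) (δ : ℝ) (hδ : 0 < δ) : ∀ᶠ y in 𝓝 x, |y i - x i| < δ := by
  have hc : ContinuousAt (fun y : E => y i) x := (continuous_apply i).continuousAt
  have := Metric.continuousAt_iff'.1 hc δ hδ
  filter_upwards [this] with y hy
  rwa [Real.dist_eq] at hy

theorem local_form (x : E) : v0 =ᶠ[𝓝 x] (fun _ => kk) ∨
    ∃ c : E, v0 =ᶠ[𝓝 x] fun y => kk + w (y - c) := by
  classical
  have hb : ∀ a : ℝ, |a - 4 * round (a / 4)| ≤ 2 := by
    intro a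
    have := abs_sub_round (a / 4)
    rw [abs_le] at this ⊢
    constructor <;> linarith [this.1, this.2]
  by_cases hA : |x 0 - 4 * round (x 0 / 4)| < 2 ∧ |x 1 - 4 * round (x 1 / 4)| < 2
  · obtain ⟨h0, h1⟩ := hA
    have hr : ∀ᶠ y in 𝓝 x, round (y 0 / 4) = round (x 0 / 4) ∧
        round (y 1 / 4) = round (x 1 / 4) := by
      filter_upwards [near_val x 0 (2 - |x 0 - 4 * round (x 0 / 4)|) (by linarith),
        near_val x 1 (2 - |x 1 - 4 * round (x 1 / 4)|) (by linarith)] with y hy0 hy1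
      constructor
      · apply round_near
        have := abs_add_le (y 0 - x 0) (x 0 - 4 * round (x 0 / 4))
        rw [sub_add_sub_cancel] at this
        linarith
      · apply round_near
        have := abs_add_le (y 1 - x 1) (x 1 - 4 * round (x 1 / 4))
        rw [sub_add_sub_cancel] at this
        linarith
    by_cases hs : (round (x 0 / 4), round (x 1 / 4)) ∈ sites
    · right
      refine ⟨cc (round (x 0 / 4), round (x 1 / 4)), ?_⟩
      filter_upwards [hr] with y hy
      rw [v0_eq, hy.1, hy.2, if_pos hs]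
    · left
      filter_upwards [hr] with y hy
      rw [v0_eq, hy.1, hy.2, if_neg hs]
  · left
    have hw : ∀ᶠ y in 𝓝 x, ∀ r0 r1 : ℤ, w (y - cc (r0, r1)) = 0 := by
      rw [not_and_or, not_lt, not_lt] at hA
      rcases hA with hA | hA
      · have h2 : |x 0 - 4 * round (x 0 / 4)| = 2 := le_antisymm (hb _) hA
        filter_upwards [near_val x 0 (1 / 4) (by norm_num)] with y hy r0 r1
        apply w_zero
        have := round_far (x 0) (y 0) h2 hy r0
        simp only [cc, Pi.sub_apply, Matrix.cons_val_zero, Matrix.cons_val_one]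
        nlinarith [sq_nonneg (y 1 - 4 * (r1 : ℝ))]
      · have h2 : |x 1 - 4 * round (x 1 / 4)| = 2 := le_antisymm (hb _) hA
        filter_upwards [near_val x 1 (1 / 4) (by norm_num)] with y hy r0 r1
        apply w_zero
        have := round_far (x 1) (y 1) h2 hy r1
        simp only [cc, Pi.sub_apply, Matrix.cons_val_zero, Matrix.cons_val_one]
        nlinarith [sq_nonneg (y 0 - 4 * (r0 : ℝ))]
    filter_upwards [hw] with y hy
    rw [v0_eq, hy, add_zero]
    split_ifs <;> rfl

theorem w_shift (x : E) (s : ℝ) : w (x - Pi.single 2 s) = w x := by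
  unfold w
  have h0 : (x - Pi.single 2 s : E) 0 = x 0 := by simp
  have h1 : (x - Pi.single 2 s : E) 1 = x 1 := by simp
  rw [h0, h1]

theorem w_bound (n : ℕ) : ∃ C : ℝ, 0 ≤ C ∧ ∀ x, ‖iteratedFDeriv ℝ n w x‖ ≤ C := by
  have hcont : Continuous (iteratedFDeriv ℝ n w) :=
    w_contDiff.continuous_iteratedFDeriv (by exact_mod_cast le_top)
  obtain ⟨C, hC⟩ := (isCompact_closedBall (0 : E) 2).exists_bound_of_continuousOn
    hcont.continuousOn
  refine ⟨max C 0, le_max_right _ _, ?_⟩
  intro x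
  have hshift : iteratedFDeriv ℝ n w x = iteratedFDeriv ℝ n w (x - Pi.single 2 (x 2)) := by
    have h1 : w = fun y => w (y - Pi.single 2 (x 2)) := funext fun y => (w_shift y _).symm
    conv_lhs => rw [h1]
    rw [iteratedFDeriv_comp_sub]
  rw [hshift]
  set z : E := x - Pi.single 2 (x 2) with hz
  have hz2 : z 2 = 0 := by rw [hz]; simp
  by_cases hq : 2 < z 0 ^ 2 + z 1 ^ 2
  · have hev : w =ᶠ[𝓝 z] fun _ => (0 : E) := by
      have hopen : IsOpen {y : E | 2 < y 0 ^ 2 + y 1 ^ 2} :=
        isOpen_lt continuous_const (by fun_prop)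
      filter_upwards [hopen.mem_nhds hq] with y hy
      exact w_zero y (le_of_lt hy)
    have := (hev.iteratedFDeriv ℝ n).self_of_nhds
    rw [this]
    have h0 : iteratedFDeriv ℝ n (fun _ : E => (0 : E)) z = 0 := by
      rw [iteratedFDeriv_fun_zero]; rfl
    rw [h0, norm_zero]
    exact le_max_right _ _
  · refine (hC z ?_).trans (le_max_left _ _)
    rw [mem_closedBall_zero_iff, pi_norm_le_iff_of_nonneg (by norm_num)]
    push Not at hq
    intro i
    rw [Real.norm_eq_abs]
    fin_cases i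
    · apply abs_le_of_sq_le_sq _ (by norm_num)
      show z 0 ^ 2 ≤ 2 ^ 2
      nlinarith [sq_nonneg (z 1)]
    · apply abs_le_of_sq_le_sq _ (by norm_num)
      show z 1 ^ 2 ≤ 2 ^ 2
      nlinarith [sq_nonneg (z 0)]
    · show |z 2| ≤ 2
      rw [hz2, abs_zero]
      norm_num

theorem shifted_contDiff (c : E) :
    ContDiff ℝ ((⊤ : ℕ∞) : WithTop ℕ∞) (fun y : E => w (y - c)) :=
  w_contDiff.comp (contDiff_id.sub contDiff_const)

theorem const_bound (n : ℕ) (x : E) : ‖iteratedFDeriv ℝ n (fun _ : E => kk) x‖ ≤ ‖kk‖ := by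
  rcases Nat.eq_zero_or_pos n with h | h
  · subst h
    rw [norm_iteratedFDeriv_zero]
  · rw [iteratedFDeriv_const_of_ne (by omega)]
    simp

theorem thm : G_V0A := by
  constructor
  · rw [contDiff_iff_contDiffAt]
    intro x
    rcases local_form x with h | ⟨c, h⟩
    · exact contDiffAt_const.congr_of_eventuallyEq h
    · exact (contDiff_const.add (shifted_contDiff c)).contDiffAt.congr_of_eventuallyEq h
  · intro n
    obtain ⟨C, hC0, hC⟩ := w_bound n
    refine ⟨‖kk‖ + C, ?_⟩
    intro x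
    rcases local_form x with h | ⟨c, h⟩
    · rw [(h.iteratedFDeriv ℝ n).self_of_nhds]
      have := const_bound n x
      linarith
    · rw [(h.iteratedFDeriv ℝ n).self_of_nhds]
      have h1 : iteratedFDeriv ℝ n (fun y : E => kk + w (y - c)) x =
          iteratedFDeriv ℝ n (fun _ : E => kk) x + iteratedFDeriv ℝ n (fun y : E => w (y - c)) x := by
        apply fun_iteratedFDeriv_add_apply
        · exact contDiffAt_const
        · exact ((shifted_contDiff c).of_le (by exact_mod_cast le_top)).contDiffAt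
      rw [h1]
      refine (norm_add_le _ _).trans ?_
      rw [iteratedFDeriv_comp_sub]
      exact add_le_add (const_bound n x) (hC _)

end Pool.Agent.Helper3.Slab
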